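import Mathlib

/-!
# Exponentials of stable complex matrices

Spectral mapping for the matrix exponential, exponential decay, the cost integral and its
Lyapunov equation.
-/

open scoped Matrix.Norms.L2Operator Matrix
open MeasureTheory Filter Topology Set

namespace Pool.Agent.Lib.Helper28.StableExp

noncomputable section

variable {n : ℕ}

/-- If `C w = c w` then `exp(C) w = e^c w`. -/
lemma exp_mulVec_of_eigen (C : Matrix (Fin n) (Fin n) ℂ) (w : Fin n → ℂ) (c : ℂ)
    (h : C *ᵥ w = c • w) : NormedSpace.exp C *ᵥ w = Complex.exp c • w := by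
  have h1 : HasSum (fun k : ℕ => ((k.factorial : ℂ)⁻¹) • C ^ k) (NormedSpace.exp C) :=
    NormedSpace.exp_series_hasSum_exp' (𝕂 := ℂ) C
  let L : Matrix (Fin n) (Fin n) ℂ →ₗ[ℂ] (Fin n → ℂ) :=
    { toFun := fun M => M *ᵥ w
      map_add' := fun M N => Matrix.add_mulVec M N w
      map_smul' := fun a M => Matrix.smul_mulVec a M w }
  have hL : Continuous L := L.continuous_of_finiteDimensional
  have h2 : HasSum (fun k : ℕ => L (((k.factorial : ℂ)⁻¹) • C ^ k)) (L (NormedSpace.exp C)) :=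
    h1.map L hL
  have hpow : ∀ k : ℕ, (C ^ k) *ᵥ w = c ^ k • w := by
    intro k
    induction k with
    | zero => simp
    | succ k ih =>
      rw [pow_succ, ← Matrix.mulVec_mulVec, h, Matrix.mulVec_smul, ih, smul_smul, pow_succ,
        mul_comm]
  have h3 : ∀ k : ℕ, L (((k.factorial : ℂ)⁻¹) • C ^ k) = (((k.factorial : ℂ)⁻¹) • c ^ k) • w := by
    intro k
    rw [map_smul]
    change ((k.factorial : ℂ)⁻¹) • ((C ^ k) *ᵥ w) = _
    rw [hpow, smul_smul, smul_eq_mul]
  have h4 : HasSum (fun k : ℕ => (((k.factorial : ℂ)⁻¹) • c ^ k)) (NormedSpace.exp c) :=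
    NormedSpace.exp_series_hasSum_exp' (𝕂 := ℂ) c
  have h5 : HasSum (fun k : ℕ => (((k.factorial : ℂ)⁻¹) • c ^ k) • w) (NormedSpace.exp c • w) :=
    h4.smul_const w
  have h6 : L (NormedSpace.exp C) = NormedSpace.exp c • w := by
    refine h2.unique ?_
    simp_rw [h3]
    exact h5
  rw [← Complex.exp_eq_exp_ℂ] at h6
  exact h6

/-- Spectral mapping: every point of the spectrum of `exp C` is the exponential of a point of the
spectrum of `C`. -/
lemma exists_of_mem_spectrum_exp (C : Matrix (Fin n) (Fin n) ℂ) (z : ℂ)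
    (hz : z ∈ spectrum ℂ (NormedSpace.exp C)) : ∃ c ∈ spectrum ℂ C, z = Complex.exp c := by
  rw [← Matrix.spectrum_toLin', ← Module.End.hasEigenvalue_iff_mem_spectrum] at hz
  set E := Module.End.eigenspace (Matrix.toLin' (NormedSpace.exp C)) z with hE
  have hcomm : C * NormedSpace.exp C = NormedSpace.exp C * C := by
    have : Commute C (NormedSpace.exp C) := (Commute.refl C).exp_right
    exact this
  have hmap : ∀ x ∈ E, Matrix.toLin' C x ∈ E := by
    intro x hx
    rw [hE, Module.End.mem_eigenspace_iff] at hx ⊢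
    rw [Matrix.toLin'_apply] at hx
    rw [Matrix.toLin'_apply, Matrix.toLin'_apply, Matrix.mulVec_mulVec, ← hcomm,
      ← Matrix.mulVec_mulVec, hx, Matrix.mulVec_smul]
  have hnt : Nontrivial E := by
    rw [Submodule.nontrivial_iff_ne_bot]
    exact hz
  obtain ⟨c, hc⟩ := Module.End.exists_eigenvalue ((Matrix.toLin' C).restrict hmap)
  obtain ⟨w, hw⟩ := hc.exists_hasEigenvector
  have hw0 : (w : Fin n → ℂ) ≠ 0 := by
    intro h
    exact hw.2 (Subtype.ext h)
  have hCw : C *ᵥ (w : Fin n → ℂ) = c • (w : Fin n → ℂ) := by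
    have := hw.apply_eq_smul
    have := congrArg Subtype.val this
    simpa using this
  refine ⟨c, ?_, ?_⟩
  · rw [← Matrix.spectrum_toLin', ← Module.End.hasEigenvalue_iff_mem_spectrum]
    refine Module.End.hasEigenvalue_of_hasEigenvector (x := (w : Fin n → ℂ)) ⟨?_, hw0⟩
    rw [Module.End.mem_eigenspace_iff, Matrix.toLin'_apply]
    exact hCw
  · have h1 := exp_mulVec_of_eigen C w c hCw
    have h2 : NormedSpace.exp C *ᵥ (w : Fin n → ℂ) = z • (w : Fin n → ℂ) := by
      have h5 : (w : Fin n → ℂ) ∈ Module.End.eigenspace (Matrix.toLin' (NormedSpace.exp C)) z := w.2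
      rw [Module.End.mem_eigenspace_iff, Matrix.toLin'_apply] at h5
      exact h5
    rw [h2] at h1
    have h3 : (z - Complex.exp c) • (w : Fin n → ℂ) = 0 := by rw [sub_smul, h1, sub_self]
    rcases smul_eq_zero.mp h3 with h | h
    · exact sub_eq_zero.mp h
    · exact absurd h hw0

/-- Exponential decay of the semigroup of a stable matrix. -/
lemma exp_decay (hn : 0 < n) (C : Matrix (Fin n) (Fin n) ℂ)
    (hC : ∀ z ∈ spectrum ℂ C, z.re < 0) :
    ∃ K ε : ℝ, 0 < ε ∧ 0 ≤ K ∧ ∀ t : ℝ, 0 ≤ t →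
      ‖NormedSpace.exp (t • C)‖ ≤ K * Real.exp (-(ε * t)) := by
  have : Nonempty (Fin n) := ⟨⟨0, hn⟩⟩
  set a := NormedSpace.exp C with ha
  have hr : spectralRadius ℂ a < ((1 : NNReal) : ENNReal) := by
    refine spectrum.spectralRadius_lt_of_forall_lt a (fun z hz => ?_)
    obtain ⟨c, hc, rfl⟩ := exists_of_mem_spectrum_exp C z hz
    rw [← NNReal.coe_lt_coe, coe_nnnorm, Complex.norm_exp, NNReal.coe_one]
    exact Real.exp_lt_one_iff.mpr (hC c hc)
  have hlim := spectrum.pow_nnnorm_pow_one_div_tendsto_nhds_spectralRadius a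
  have hev : ∀ᶠ k : ℕ in atTop, ((‖a ^ k‖₊ : ENNReal)) ^ (1 / (k : ℝ)) < 1 :=
    hlim.eventually (gt_mem_nhds (by simpa using hr))
  obtain ⟨k, hk1, hk0⟩ := (hev.and (eventually_gt_atTop 0)).exists
  have hkpos : (0 : ℝ) < k := by exact_mod_cast hk0
  have hq1 : ‖a ^ k‖ < 1 := by
    have h1 : ((‖a ^ k‖₊ : ENNReal)) < 1 := by
      by_contra hcon
      rw [not_lt] at hcon
      have : (1 : ENNReal) ≤ ((‖a ^ k‖₊ : ENNReal)) ^ (1 / (k : ℝ)) :=
        ENNReal.one_le_rpow hcon (by positivity)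
      exact absurd hk1 (not_lt.mpr this)
    have h2 : ‖a ^ k‖₊ < 1 := by exact_mod_cast h1
    exact_mod_cast h2
  set q : ℝ := max ‖a ^ k‖ (1 / 2) with hq
  have hq0 : 0 < q := lt_max_of_lt_right (by norm_num)
  have hqlt : q < 1 := max_lt hq1 (by norm_num)
  have hlogq : Real.log q < 0 := Real.log_neg hq0 hqlt
  obtain ⟨K0, hK0⟩ := (isCompact_Icc (a := (0 : ℝ)) (b := k)).exists_bound_of_continuousOn
    (f := fun s : ℝ => NormedSpace.exp (s • C))
    (fun s _ => (hasDerivAt_exp_smul_const C s).continuousAt.continuousWithinAt)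
  have hK00 : 0 ≤ K0 := (norm_nonneg _).trans (hK0 0 ⟨le_refl _, hkpos.le⟩)
  refine ⟨K0 * q⁻¹, -Real.log q / k, by
    exact div_pos (neg_pos.mpr hlogq) hkpos, by positivity, ?_⟩
  intro t ht
  set j : ℕ := ⌊t / k⌋₊ with hj
  have hj1 : (j : ℝ) ≤ t / k := Nat.floor_le (by positivity)
  have hj2 : t / k < j + 1 := Nat.lt_floor_add_one _
  have hs0 : 0 ≤ t - j * k := by
    have := (le_div_iff₀ hkpos).mp hj1
    linarith
  have hsk : t - j * k ≤ k := by
    have := (div_lt_iff₀ hkpos).mp hj2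
    nlinarith
  have hsplit : NormedSpace.exp (t • C) = NormedSpace.exp ((t - j * k) • C) * (a ^ k) ^ j := by
    have h1 : t • C = (t - j * k) • C + ((j : ℝ) * k) • C := by
      rw [← add_smul]
      congr 1
      ring
    have hcm : Commute ((t - j * k) • C) (((j : ℝ) * k) • C) :=
      ((Commute.refl C).smul_left _).smul_right _
    rw [h1, Matrix.exp_add_of_commute _ _ hcm]
    congr 1
    have h2 : ((j : ℝ) * k) • C = (k * j) • C := by
      rw [← Nat.cast_smul_eq_nsmul ℝ]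
      push_cast
      rw [mul_comm]
    rw [h2, ha, ← pow_mul, ← Matrix.exp_nsmul]
  rw [hsplit]
  have h3 : ‖NormedSpace.exp ((t - j * k) • C)‖ ≤ K0 := hK0 _ ⟨hs0, hsk⟩
  have h4 : ‖(a ^ k) ^ j‖ ≤ q ^ j := by
    refine (norm_pow_le _ _).trans ?_
    exact pow_le_pow_left₀ (norm_nonneg _) (le_max_left _ _) _
  have h5 : q ^ j ≤ q⁻¹ * Real.exp (-(-Real.log q / k * t)) := by
    have h6 : Real.exp (-(-Real.log q / k * t)) = q ^ (t / k) := by
      rw [Real.rpow_def_of_pos hq0]
      congr 1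
      field_simp
    rw [h6, ← Real.rpow_natCast, ← Real.rpow_neg_one, ← Real.rpow_add hq0]
    apply Real.rpow_le_rpow_of_exponent_ge hq0 hqlt.le
    linarith
  calc ‖NormedSpace.exp ((t - j * k) • C) * (a ^ k) ^ j‖
      ≤ ‖NormedSpace.exp ((t - j * k) • C)‖ * ‖(a ^ k) ^ j‖ := norm_mul_le _ _
    _ ≤ K0 * (q⁻¹ * Real.exp (-(-Real.log q / k * t))) := by
        apply mul_le_mul h3 (h4.trans h5) (norm_nonneg _) hK00
    _ = _ := by ring

end

end Pool.Agent.Lib.Helper28.StableExp
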