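import Mathlib
import Pool.Agent.Lib.Helper28.StableExp

/-!
# The cost integral of a stable matrix: Lyapunov equation and the key inequality
-/

open scoped Matrix.Norms.L2Operator Matrix ComplexOrder
open MeasureTheory Filter Topology Set

namespace Pool.Agent.Lib.Helper28.CostBound

noncomputable section

variable {n : ℕ}

/-- The integrand of the cost matrix. -/
def integrand (C : Matrix (Fin n) (Fin n) ℂ) (t : ℝ) : Matrix (Fin n) (Fin n) ℂ :=
  NormedSpace.exp (t • Cᴴ) * NormedSpace.exp (t • C)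

lemma norm_exp_conjTranspose (C : Matrix (Fin n) (Fin n) ℂ) (t : ℝ) :
    NormedSpace.exp (t • Cᴴ) = (NormedSpace.exp (t • C))ᴴ := by
  rw [← Matrix.exp_conjTranspose]
  congr 1
  rw [Matrix.conjTranspose_smul]
  simp

lemma hasDerivAt_integrand (C : Matrix (Fin n) (Fin n) ℂ) (t : ℝ) :
    HasDerivAt (integrand C) (Cᴴ * integrand C t + integrand C t * C) t := by
  have h1 := hasDerivAt_exp_smul_const' (𝕂 := ℝ) (Cᴴ) t
  have h2 := hasDerivAt_exp_smul_const (𝕂 := ℝ) C t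
  have h3 := h1.mul h2
  refine h3.congr_deriv ?_
  unfold integrand
  simp only [mul_assoc]

lemma integrand_zero (C : Matrix (Fin n) (Fin n) ℂ) : integrand C 0 = 1 := by
  simp [integrand]

lemma norm_integrand (C : Matrix (Fin n) (Fin n) ℂ) (t : ℝ) :
    ‖integrand C t‖ ≤ ‖NormedSpace.exp (t • C)‖ ^ 2 := by
  unfold integrand
  rw [norm_exp_conjTranspose, Matrix.l2_opNorm_conjTranspose_mul_self, sq]

lemma integrable_and_tendsto (hn : 0 < n) (C : Matrix (Fin n) (Fin n) ℂ)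
    (hC : ∀ z ∈ spectrum ℂ C, z.re < 0) :
    IntegrableOn (integrand C) (Ioi 0) ∧ Tendsto (integrand C) atTop (𝓝 0) := by
  obtain ⟨K, ε, hε, hK, hb⟩ := StableExp.exp_decay hn C hC
  have hbound : ∀ t : ℝ, 0 ≤ t → ‖integrand C t‖ ≤ K ^ 2 * Real.exp (-(2 * ε) * t) := by
    intro t ht
    refine (norm_integrand C t).trans ?_
    have h1 := pow_le_pow_left₀ (norm_nonneg _) (hb t ht) 2
    refine h1.trans (le_of_eq ?_)
    rw [mul_pow, ← Real.exp_nat_mul]
    congr 2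
    push_cast
    ring
  have hcont : Continuous (integrand C) :=
    continuous_iff_continuousAt.mpr (fun t => (hasDerivAt_integrand C t).continuousAt)
  have hint : IntegrableOn (fun t : ℝ => K ^ 2 * Real.exp (-(2 * ε) * t)) (Ioi 0) :=
    (exp_neg_integrableOn_Ioi 0 (by positivity)).const_mul _
  constructor
  · refine Integrable.mono' hint hcont.aestronglyMeasurable ?_
    refine (ae_restrict_iff' measurableSet_Ioi).mpr (Eventually.of_forall ?_)
    intro t ht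
    exact hbound t (le_of_lt ht)
  · have hlim : Tendsto (fun t : ℝ => K ^ 2 * Real.exp (-(2 * ε) * t)) atTop (𝓝 0) := by
      have h1 : Tendsto (fun t : ℝ => (-(2 * ε)) * t) atTop atBot :=
        tendsto_id.const_mul_atTop_of_neg (by linarith)
      have h2 := (Real.tendsto_exp_atBot.comp h1).const_mul (K ^ 2)
      simpa using h2
    refine squeeze_zero_norm' ?_ hlim
    filter_upwards [eventually_ge_atTop 0] with t ht
    exact hbound t ht

/-- The Lyapunov equation for the cost matrix. -/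
lemma lyapunov (hn : 0 < n) (C : Matrix (Fin n) (Fin n) ℂ)
    (hC : ∀ z ∈ spectrum ℂ C, z.re < 0) :
    Cᴴ * (∫ t in Ioi (0 : ℝ), integrand C t) + (∫ t in Ioi (0 : ℝ), integrand C t) * C = -1 := by
  obtain ⟨hint, hlim⟩ := integrable_and_tendsto hn C hC
  have h1 : IntegrableOn (fun t => Cᴴ * integrand C t) (Ioi 0) := hint.const_mul' _
  have h2 : IntegrableOn (fun t => integrand C t * C) (Ioi 0) := hint.mul_const' _
  have h3 := integral_Ioi_of_hasDerivAt_of_tendsto' (a := (0 : ℝ)) (f := integrand C)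
    (fun x _ => hasDerivAt_integrand C x) (h1.add h2) hlim
  rw [integral_add h1 h2, integral_const_mul_of_integrable hint,
    integral_mul_const_of_integrable hint, integrand_zero, zero_sub] at h3
  exact h3

/-- The cost matrix is positive semidefinite. -/
lemma posSemidef (hn : 0 < n) (C : Matrix (Fin n) (Fin n) ℂ)
    (hC : ∀ z ∈ spectrum ℂ C, z.re < 0) :
    (∫ t in Ioi (0 : ℝ), integrand C t).PosSemidef := by
  obtain ⟨hint, -⟩ := integrable_and_tendsto hn C hC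
  have hherm : ∀ t, (integrand C t)ᴴ = integrand C t := by
    intro t
    unfold integrand
    rw [norm_exp_conjTranspose, Matrix.conjTranspose_mul, Matrix.conjTranspose_conjTranspose]
  refine Matrix.PosSemidef.of_dotProduct_mulVec_nonneg ?_ ?_
  · change (∫ t in Ioi (0 : ℝ), integrand C t)ᴴ = _
    let L : Matrix (Fin n) (Fin n) ℂ →ₗ[ℝ] Matrix (Fin n) (Fin n) ℂ :=
      { toFun := fun M => Mᴴ
        map_add' := fun M N => Matrix.conjTranspose_add M N
        map_smul' := fun a M => by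
          rw [Matrix.conjTranspose_smul]
          simp }
    let L' : Matrix (Fin n) (Fin n) ℂ →L[ℝ] Matrix (Fin n) (Fin n) ℂ :=
      ⟨L, L.continuous_of_finiteDimensional⟩
    have := L'.integral_comp_comm hint
    have h2 : ∀ t, L' (integrand C t) = integrand C t := hherm
    simp_rw [h2] at this
    exact this.symm
  · intro x
    let L : Matrix (Fin n) (Fin n) ℂ →ₗ[ℝ] ℂ :=
      { toFun := fun M => star x ⬝ᵥ M *ᵥ x
        map_add' := fun M N => by rw [Matrix.add_mulVec, dotProduct_add]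
        map_smul' := fun a M => by
          rw [Matrix.smul_mulVec, dotProduct_smul]
          rfl }
    let L' : Matrix (Fin n) (Fin n) ℂ →L[ℝ] ℂ := ⟨L, L.continuous_of_finiteDimensional⟩
    have h1 := L'.integral_comp_comm hint
    have h2 : ∀ t, 0 ≤ L' (integrand C t) := by
      intro t
      change 0 ≤ star x ⬝ᵥ (integrand C t) *ᵥ x
      unfold integrand
      rw [norm_exp_conjTranspose]
      exact (Matrix.posSemidef_conjTranspose_mul_self
        (NormedSpace.exp (t • C))).dotProduct_mulVec_nonneg x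
    change 0 ≤ L' (∫ t in Ioi (0 : ℝ), integrand C t)
    rw [← h1]
    exact integral_nonneg h2

/-- Sum of squared moduli of the entries of a vector. -/
def nsq (y : Fin n → ℂ) : ℝ := ∑ i, ‖y i‖ ^ 2

lemma nsq_nonneg (y : Fin n → ℂ) : 0 ≤ nsq y := Finset.sum_nonneg (fun i _ => by positivity)

lemma nsq_pos {y : Fin n → ℂ} (hy : y ≠ 0) : 0 < nsq y := by
  obtain ⟨i, hi⟩ := Function.ne_iff.mp hy
  refine Finset.sum_pos' (fun i _ => by positivity) ⟨i, Finset.mem_univ i, ?_⟩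
  have : 0 < ‖y i‖ := norm_pos_iff.mpr hi
  positivity

lemma nsq_eq_norm (y : EuclideanSpace ℂ (Fin n)) : nsq y.ofLp = ‖y‖ ^ 2 := by
  rw [EuclideanSpace.norm_sq_eq]
  rfl

lemma star_dotProduct_self (y : Fin n → ℂ) : star y ⬝ᵥ y = ((nsq y : ℝ) : ℂ) := by
  unfold nsq dotProduct
  push_cast
  refine Finset.sum_congr rfl (fun i _ => ?_)
  rw [Pi.star_apply, RCLike.star_def, ← Complex.normSq_eq_conj_mul_self, Complex.normSq_eq_norm_sq]
  push_cast
  rfl

lemma nsq_mulVec_le_trace (W : Matrix (Fin n) (Fin n) ℂ) (y : Fin n → ℂ) :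
    nsq (W *ᵥ y) ≤ (Matrix.trace (Wᴴ * W)).re * nsq y := by
  have h1 : (Matrix.trace (Wᴴ * W)).re = ∑ i, ∑ j, ‖W i j‖ ^ 2 := by
    rw [Matrix.trace, Complex.re_sum, Finset.sum_comm]
    refine Finset.sum_congr rfl (fun j _ => ?_)
    rw [Matrix.diag_apply, Matrix.mul_apply, Complex.re_sum]
    refine Finset.sum_congr rfl (fun i _ => ?_)
    rw [Matrix.conjTranspose_apply, RCLike.star_def, ← Complex.normSq_eq_conj_mul_self,
      Complex.ofReal_re, Complex.normSq_eq_norm_sq]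
  rw [h1, Finset.sum_mul]
  unfold nsq
  refine Finset.sum_le_sum (fun i _ => ?_)
  have h2 : ‖(W *ᵥ y) i‖ ≤ ∑ j, ‖W i j‖ * ‖y j‖ := by
    unfold Matrix.mulVec dotProduct
    refine (norm_sum_le _ _).trans (Finset.sum_le_sum (fun j _ => ?_))
    rw [norm_mul]
  calc ‖(W *ᵥ y) i‖ ^ 2 ≤ (∑ j, ‖W i j‖ * ‖y j‖) ^ 2 := pow_le_pow_left₀ (norm_nonneg _) h2 2
    _ ≤ (∑ j, ‖W i j‖ ^ 2) * ∑ j, ‖y j‖ ^ 2 := Finset.sum_mul_sq_le_sq_mul_sq _ _ _

/-- The key inequality: if `X` is positive semidefinite and solves the Lyapunov equation of the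
invertible matrix `C`, then `|C⁻¹ u|² ≤ -2 Re tr(C⁻¹) · u* X u`. -/
lemma key_inequality (C X : Matrix (Fin n) (Fin n) ℂ) (hCu : IsUnit C.det)
    (hX : X.PosSemidef) (hL : Cᴴ * X + X * C = -1) (u : Fin n → ℂ) :
    nsq (C⁻¹ *ᵥ u) ≤ (-2 * (Matrix.trace C⁻¹).re) * (star u ⬝ᵥ X *ᵥ u).re := by
  open scoped MatrixOrder in
  obtain ⟨L, hLX⟩ := CStarAlgebra.nonneg_iff_eq_star_mul_self.mp hX.nonneg
  rw [Matrix.star_eq_conjTranspose] at hLX
  -- `L` is invertible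
  have hLinj : ∀ w : Fin n → ℂ, L *ᵥ w = 0 → w = 0 := by
    intro w hw
    have hXw : X *ᵥ w = 0 := by rw [hLX, ← Matrix.mulVec_mulVec, hw, Matrix.mulVec_zero]
    have h1 : star w ⬝ᵥ ((Cᴴ * X + X * C) *ᵥ w) = -((nsq w : ℝ) : ℂ) := by
      rw [hL, Matrix.neg_mulVec, Matrix.one_mulVec, dotProduct_neg, star_dotProduct_self]
    have h2 : star w ⬝ᵥ ((Cᴴ * X + X * C) *ᵥ w) = 0 := by
      rw [Matrix.add_mulVec, ← Matrix.mulVec_mulVec, hXw, Matrix.mulVec_zero, zero_add,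
        ← Matrix.mulVec_mulVec, Matrix.dotProduct_mulVec]
      have h3 : star w ᵥ* X = 0 := by
        have h4 : star (X *ᵥ w) = star w ᵥ* Xᴴ := Matrix.star_mulVec X w
        rw [hXw, hX.1] at h4
        rw [← h4, star_zero]
      rw [h3, zero_dotProduct]
    rw [h2] at h1
    by_contra hw0
    have := nsq_pos hw0
    have h5 : ((nsq w : ℝ) : ℂ) = 0 := by
      have := h1.symm
      rwa [neg_eq_zero] at this
    have h6 : nsq w = 0 := by exact_mod_cast h5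
    linarith
  have hLu : IsUnit L.det := by
    rw [isUnit_iff_ne_zero]
    intro hdet
    obtain ⟨v, hv0, hv⟩ := Matrix.exists_mulVec_eq_zero_iff.mpr hdet
    exact hv0 (hLinj v hv)
  have hLh : IsUnit (Lᴴ).det := by
    rw [Matrix.det_conjTranspose]
    exact hLu.star
  have hCh : IsUnit (Cᴴ).det := by
    rw [Matrix.det_conjTranspose]
    exact hCu.star
  set W := C⁻¹ * L⁻¹ with hW
  -- `Wᴴ W = -(L C⁻¹ L⁻¹ + (Lᴴ)⁻¹ (Cᴴ)⁻¹ Lᴴ)`
  have h1 : (Cᴴ)⁻¹ * C⁻¹ = -(X * C⁻¹ + (Cᴴ)⁻¹ * X) := by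
    have h2 : (Cᴴ)⁻¹ * (Cᴴ * X + X * C) * C⁻¹ = X * C⁻¹ + (Cᴴ)⁻¹ * X := by
      rw [mul_add, add_mul, ← mul_assoc (Cᴴ)⁻¹ Cᴴ X, Matrix.nonsing_inv_mul _ hCh, one_mul,
        mul_assoc (Cᴴ)⁻¹ (X * C) C⁻¹, mul_assoc X C C⁻¹, Matrix.mul_nonsing_inv _ hCu, mul_one]
    rw [← h2, hL]
    simp
  have h3 : Wᴴ * W = -(L * C⁻¹ * L⁻¹ + (Lᴴ)⁻¹ * (Cᴴ)⁻¹ * Lᴴ) := by
    have h4 : Wᴴ * W = (Lᴴ)⁻¹ * ((Cᴴ)⁻¹ * C⁻¹) * L⁻¹ := by
      rw [hW, Matrix.conjTranspose_mul, Matrix.conjTranspose_nonsing_inv,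
        Matrix.conjTranspose_nonsing_inv]
      simp only [mul_assoc]
    rw [h4, h1, hLX]
    have h5 : (Lᴴ)⁻¹ * (Lᴴ * L * C⁻¹) * L⁻¹ = L * C⁻¹ * L⁻¹ := by
      rw [mul_assoc Lᴴ L C⁻¹, ← mul_assoc (Lᴴ)⁻¹ Lᴴ (L * C⁻¹), Matrix.nonsing_inv_mul _ hLh,
        one_mul]
    have h6 : (Lᴴ)⁻¹ * ((Cᴴ)⁻¹ * (Lᴴ * L)) * L⁻¹ = (Lᴴ)⁻¹ * (Cᴴ)⁻¹ * Lᴴ := by
      rw [← mul_assoc (Cᴴ)⁻¹ Lᴴ L, ← mul_assoc (Lᴴ)⁻¹ ((Cᴴ)⁻¹ * Lᴴ) L,
        mul_assoc ((Lᴴ)⁻¹ * ((Cᴴ)⁻¹ * Lᴴ)) L L⁻¹, Matrix.mul_nonsing_inv _ hLu, mul_one, mul_assoc]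
    rw [mul_neg, neg_mul, mul_add, add_mul, h5, h6]
  have h7 : (Matrix.trace (Wᴴ * W)).re = -2 * (Matrix.trace C⁻¹).re := by
    rw [h3, Matrix.trace_neg, Matrix.trace_add]
    have h8 : Matrix.trace (L * C⁻¹ * L⁻¹) = Matrix.trace C⁻¹ := by
      rw [Matrix.trace_mul_comm, ← mul_assoc, Matrix.nonsing_inv_mul _ hLu, one_mul]
    have h9 : Matrix.trace ((Lᴴ)⁻¹ * (Cᴴ)⁻¹ * Lᴴ) = star (Matrix.trace C⁻¹) := by
      rw [Matrix.trace_mul_comm, ← mul_assoc, Matrix.mul_nonsing_inv _ hLh, one_mul,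
        ← Matrix.conjTranspose_nonsing_inv, Matrix.trace_conjTranspose]
    rw [h8, h9, Complex.neg_re, Complex.add_re, RCLike.star_def, Complex.conj_re]
    ring
  have h10 := nsq_mulVec_le_trace W (L *ᵥ u)
  have h11 : W *ᵥ (L *ᵥ u) = C⁻¹ *ᵥ u := by
    rw [Matrix.mulVec_mulVec, hW, mul_assoc, Matrix.nonsing_inv_mul _ hLu, mul_one]
  have h12 : ((nsq (L *ᵥ u) : ℝ) : ℂ) = star u ⬝ᵥ X *ᵥ u := by
    rw [← star_dotProduct_self, hLX, ← Matrix.mulVec_mulVec, Matrix.dotProduct_mulVec _ Lᴴ,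
      ← Matrix.star_mulVec]
  rw [h11, h7] at h10
  rw [← h12, Complex.ofReal_re]
  exact h10

/-- If all eigenvalues of `C` have real part at most `-γ < 0`, then `-Re tr(C⁻¹) ≤ n / γ`. -/
lemma neg_trace_inv_le (C : Matrix (Fin n) (Fin n) ℂ) (γ : ℝ) (hγ : 0 < γ)
    (hC : ∀ z ∈ spectrum ℂ C, z.re ≤ -γ) (hCu : IsUnit C.det) :
    -(Matrix.trace C⁻¹).re ≤ n / γ := by
  have h1 : ∀ μ ∈ (C⁻¹).charpoly.roots, -μ.re ≤ 1 / γ := by
    intro μ hμ
    have h2 : (C⁻¹).charpoly.IsRoot μ := (Polynomial.mem_roots'.mp hμ).2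
    rw [← Matrix.mem_spectrum_iff_isRoot_charpoly, ← Matrix.spectrum_toLin',
      ← Module.End.hasEigenvalue_iff_mem_spectrum] at h2
    obtain ⟨w, hw⟩ := h2.exists_hasEigenvector
    have h3 : C⁻¹ *ᵥ w = μ • w := by
      have := hw.apply_eq_smul
      rwa [Matrix.toLin'_apply] at this
    have h4 : w = μ • (C *ᵥ w) := by
      rw [← Matrix.mulVec_smul, ← h3, Matrix.mulVec_mulVec, Matrix.mul_nonsing_inv _ hCu,
        Matrix.one_mulVec]
    have hμ0 : μ ≠ 0 := by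
      intro h
      rw [h, zero_smul] at h4
      exact hw.2 h4
    have h5 : C *ᵥ w = μ⁻¹ • w := by
      conv_rhs => rw [h4]
      rw [smul_smul, inv_mul_cancel₀ hμ0, one_smul]
    have h6 : μ⁻¹ ∈ spectrum ℂ C := by
      rw [← Matrix.spectrum_toLin', ← Module.End.hasEigenvalue_iff_mem_spectrum]
      refine Module.End.hasEigenvalue_of_hasEigenvector (x := w) ⟨?_, hw.2⟩
      rw [Module.End.mem_eigenspace_iff, Matrix.toLin'_apply]
      exact h5
    have h7 := hC _ h6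
    rw [Complex.inv_re] at h7
    have h8 : 0 < Complex.normSq μ := Complex.normSq_pos.mpr hμ0
    have h9 : μ.re ≤ -γ * Complex.normSq μ := (div_le_iff₀ h8).mp h7
    have h10 : μ.re ^ 2 ≤ Complex.normSq μ := by
      rw [Complex.normSq_apply]
      nlinarith [sq_nonneg μ.im]
    rw [le_div_iff₀ hγ]
    have h11 : 0 < -μ.re := by
      have : 0 < γ * Complex.normSq μ := by positivity
      linarith
    by_contra hcon
    rw [not_le] at hcon
    have h12 : -μ.re * 1 < -μ.re * (-μ.re * γ) := mul_lt_mul_of_pos_left hcon h11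
    have h13 : γ * μ.re ^ 2 ≤ γ * Complex.normSq μ := mul_le_mul_of_nonneg_left h10 hγ.le
    nlinarith
  rw [Matrix.trace_eq_sum_roots_charpoly]
  have h2 : -((C⁻¹).charpoly.roots.sum).re = ((C⁻¹).charpoly.roots.map (fun μ => -μ.re)).sum := by
    rw [← Complex.coe_reAddGroupHom, map_multiset_sum, ← Multiset.sum_map_neg', Multiset.map_map]
    rfl
  rw [h2]
  have h3 := Multiset.sum_le_card_nsmul ((C⁻¹).charpoly.roots.map (fun μ => -μ.re)) (1 / γ)
    (by
      intro x hx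
      obtain ⟨μ, hμ, rfl⟩ := Multiset.mem_map.mp hx
      exact h1 μ hμ)
  refine h3.trans ?_
  rw [Multiset.card_map, nsmul_eq_mul]
  have h4 : ((C⁻¹).charpoly.roots.card : ℝ) ≤ n := by
    have h5 := Polynomial.card_roots' (C⁻¹).charpoly
    rw [Matrix.charpoly_natDegree_eq_dim, Fintype.card_fin] at h5
    exact_mod_cast h5
  calc ((C⁻¹).charpoly.roots.card : ℝ) * (1 / γ) ≤ n * (1 / γ) :=
        mul_le_mul_of_nonneg_right h4 (by positivity)
    _ = n / γ := by ring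

end

end Pool.Agent.Lib.Helper28.CostBound
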